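import Pool.Agent.Lib_helper29.P7A.Rels8
import Pool.Agent.Lib_helper29.P7A.Data8

/-! generated: check of triples -/

namespace Pool.Agent.Lib_helper29.P7A

open Pool.Agent.Lib_helper5 Pool.Agent.Lib_helper5.LK Pool.Agent.Lib_helper5.TB
  Pool.Agent.LibH4 Pool.Agent.LibH4.Ker Pool.Agent.LibH4.S7

theorem ck_3 : chk8 e8 AB SG K3 [nat_lit 1, nat_lit 3, nat_lit 5, nat_lit 7] = true := by
  decide +kernel

theorem ck_4 : chk8 e8 AB SG K4 [nat_lit 1, nat_lit 3, nat_lit 5, nat_lit 7] = true := by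
  decide +kernel

theorem ck_5 : chk8 e8 AB SG K5 [nat_lit 1, nat_lit 3, nat_lit 5, nat_lit 7] = true := by
  decide +kernel

end Pool.Agent.Lib_helper29.P7A
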