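import Pool.Agent.Lib_helper29.P7A.Fin8

/-! generated: filter of triples -/

namespace Pool.Agent.Lib_helper29.P7A

open Pool.Agent.Lib_helper5 Pool.Agent.Lib_helper5.LK Pool.Agent.Lib_helper5.TB
  Pool.Agent.LibH4 Pool.Agent.LibH4.Ker Pool.Agent.LibH4.S7

theorem fl_0 : fl8T R455F5 [K0] P7.TRI_0 = true := by decide +kernel

theorem fl_1 : fl8T R455F5 [K0] P7.TRI_1 = true := by decide +kernel

theorem fl_2 : fl8T R455F5 [K0] P7.TRI_2 = true := by decide +kernel

theorem fl_3 : fl8T R455F5 [K0, K1] P7.TRI_3 = true := by decide +kernel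

theorem fl_4 : fl8T R455F5 [K1, K2] P7.TRI_4 = true := by decide +kernel

theorem fl_5 : fl8T R455F5 [K2] P7.TRI_5 = true := by decide +kernel

theorem fl_6 : fl8T R455F5 [K2] P7.TRI_6 = true := by decide +kernel

theorem fl_7 : fl8T R455F5 [K2, K3] P7.TRI_7 = true := by decide +kernel

theorem fl_8 : fl8T R455F5 [K3] P7.TRI_8 = true := by decide +kernel

theorem fl_9 : fl8T R455F5 [K3, K4] P7.TRI_9 = true := by decide +kernel

theorem fl_10 : fl8T R455F5 [K4, K5, K6] P7.TRI_10 = true := by decide +kernel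

theorem fl_11 : fl8T R455F5 [K6, K7] P7.TRI_11 = true := by decide +kernel

theorem fl_12 : fl8T R455F5 [K7, K8] P7.TRI_12 = true := by decide +kernel

theorem fl_13 : fl8T R455F5 [K8] P7.TRI_13 = true := by decide +kernel

end Pool.Agent.Lib_helper29.P7A
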