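import Pool.Agent.Lib_helper29.P7A.Fin8

/-! generated: filter of triples -/

namespace Pool.Agent.Lib_helper29.P7A

open Pool.Agent.Lib_helper5 Pool.Agent.Lib_helper5.LK Pool.Agent.Lib_helper5.TB
  Pool.Agent.LibH4 Pool.Agent.LibH4.Ker Pool.Agent.LibH4.S7

theorem fl_14 : fl8T R455F5 [K8, K9] P7.TRI_14 = true := by decide +kernel

theorem fl_15 : fl8T R455F5 [K9] P7.TRI_15 = true := by decide +kernel

theorem fl_16 : fl8T R455F5 [K9, K10] P7.TRI_16 = true := by decide +kernel

theorem fl_17 : fl8T R455F5 [K10] P7.TRI_17 = true := by decide +kernel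

theorem fl_18 : fl8T R455F5 [K10, K11, K12] P7.TRI_18 = true := by decide +kernel

theorem fl_19 : fl8T R455F5 [K12] P7.TRI_19 = true := by decide +kernel

theorem fl_20 : fl8T R455F5 [K12] P7.TRI_20 = true := by decide +kernel

theorem fl_21 : fl8T R455F5 [K12, K13] P7.TRI_21 = true := by decide +kernel

theorem fl_22 : fl8T R455F5 [K13, K14] P7.TRI_22 = true := by decide +kernel

theorem fl_23 : fl8T R455F5 [K14, K15] P7.TRI_23 = true := by decide +kernel

theorem fl_24 : fl8T R455F5 [K15] P7.TRI_24 = true := by decide +kernel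

theorem fl_25 : fl8T R455F5 [K15, K16, K17] P7.TRI_25 = true := by decide +kernel

theorem fl_26 : fl8T R455F5 [K17] P7.TRI_26 = true := by decide +kernel

theorem fl_27 : fl8T R455F5 [K17, K18] P7.TRI_27 = true := by decide +kernel

end Pool.Agent.Lib_helper29.P7A
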