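import Pool.Agent.Lib_helper29.P7A.Fin8

/-! generated: filter of triples -/

namespace Pool.Agent.Lib_helper29.P7A

open Pool.Agent.Lib_helper5 Pool.Agent.Lib_helper5.LK Pool.Agent.Lib_helper5.TB
  Pool.Agent.LibH4 Pool.Agent.LibH4.Ker Pool.Agent.LibH4.S7

theorem fl_28 : fl8T R455F5 [K18, K19] P7.TRI_28 = true := by decide +kernel

theorem fl_29 : fl8T R455F5 [K19, K20, K21] P7.TRI_29 = true := by decide +kernel

theorem fl_30 : fl8T R455F5 [K21] P7.TRI_30 = true := by decide +kernel

theorem fl_31 : fl8T R455F5 [K21, K22] P7.TRI_31 = true := by decide +kernel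

theorem fl_32 : fl8T R455F5 [K22] P7.TRI_32 = true := by decide +kernel

theorem fl_33 : fl8T R455F5 [K22, K23] P7.TRI_33 = true := by decide +kernel

theorem fl_34 : fl8T R455F5 [K23, K24, K25] P7.TRI_34 = true := by decide +kernel

theorem fl_35 : fl8T R455F5 [K25, K26] P7.TRI_35 = true := by decide +kernel

theorem fl_36 : fl8T R455F5 [K26, K27] P7.TRI_36 = true := by decide +kernel

theorem fl_37 : fl8T R455F5 [K27, K28] P7.TRI_37 = true := by decide +kernel

theorem fl_38 : fl8T R455F5 [K28, K29] P7.TRI_38 = true := by decide +kernel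

theorem fl_39 : fl8T R455F5 [K29, K30] P7.TRI_39 = true := by decide +kernel

theorem fl_40 : fl8T R455F5 [K30, K31, K32] P7.TRI_40 = true := by decide +kernel

theorem fl_41 : fl8T R455F5 [K32, K33] P7.TRI_41 = true := by decide +kernel

end Pool.Agent.Lib_helper29.P7A
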