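import Pool.Agent.Lib_helper29.P7A.Ck_0
import Pool.Agent.Lib_helper29.P7A.Ck_1
import Pool.Agent.Lib_helper29.P7A.Ck_2
import Pool.Agent.Lib_helper29.P7A.Ck_3
import Pool.Agent.Lib_helper29.P7A.Ck_4
import Pool.Agent.Lib_helper29.P7A.Ck_5
import Pool.Agent.Lib_helper29.P7A.Ck_6
import Pool.Agent.Lib_helper29.P7A.Ck_7
import Pool.Agent.Lib_helper29.P7A.Ck_8
import Pool.Agent.Lib_helper29.P7A.Ck_9
import Pool.Agent.Lib_helper29.P7A.Ck_10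
import Pool.Agent.Lib_helper29.P7A.Ck_11
import Pool.Agent.Lib_helper29.P7A.Fl_0
import Pool.Agent.Lib_helper29.P7A.Fl_1
import Pool.Agent.Lib_helper29.P7A.Fl_2

/-!
Period seven, stage A2 (the prime 8): the classes modulo 13, 7, 5 of the lists `TRS` lead to the
boxes.
-/

namespace Pool.Agent.Lib_helper29.P7A

open Pool.Agent.Lib_helper5 Pool.Agent.Lib_helper5.LK Pool.Agent.Lib_helper5.TB
  Pool.Agent.LibH4 Pool.Agent.LibH4.Ker Pool.Agent.LibH4.S7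

/-- all lists of triples are checked -/
theorem ck_all : ∀ K ∈ KS, chk8 e8 AB SG K [nat_lit 1, nat_lit 3, nat_lit 5, nat_lit 7] = true := by
  intro K hK
  have hK' : K = K0 ∨ K = K1 ∨ K = K2 ∨ K = K3 ∨ K = K4 ∨ K = K5 ∨ K = K6 ∨ K = K7 ∨ K = K8 ∨ K = K9 ∨ K = K10 ∨ K = K11 ∨ K = K12 ∨ K = K13 ∨ K = K14 ∨ K = K15 ∨ K = K16 ∨ K = K17 ∨ K = K18 ∨ K = K19 ∨ K = K20 ∨ K = K21 ∨ K = K22 ∨ K = K23 ∨ K = K24 ∨ K = K25 ∨ K = K26 ∨ K = K27 ∨ K = K28 ∨ K = K29 ∨ K = K30 ∨ K = K31 ∨ K = K32 ∨ K = K33 := by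
    simpa [KS] using hK
  rcases hK' with rfl | rfl | rfl | rfl | rfl | rfl | rfl | rfl | rfl | rfl | rfl | rfl | rfl | rfl | rfl | rfl | rfl | rfl | rfl | rfl | rfl | rfl | rfl | rfl | rfl | rfl | rfl | rfl | rfl | rfl | rfl | rfl | rfl | rfl
  · exact ck_0
  · exact ck_1
  · exact ck_2
  · exact ck_3
  · exact ck_4
  · exact ck_5
  · exact ck_6
  · exact ck_7
  · exact ck_8
  · exact ck_9
  · exact ck_10
  · exact ck_11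
  · exact ck_12
  · exact ck_13
  · exact ck_14
  · exact ck_15
  · exact ck_16
  · exact ck_17
  · exact ck_18
  · exact ck_19
  · exact ck_20
  · exact ck_21
  · exact ck_22
  · exact ck_23
  · exact ck_24
  · exact ck_25
  · exact ck_26
  · exact ck_27
  · exact ck_28
  · exact ck_29
  · exact ck_30
  · exact ck_31
  · exact ck_32
  · exact ck_33

/-- every list of triples is covered by the checked lists -/
theorem fl_all : ∀ T ∈ P7.TRS, ∃ LL : List (List ℕ), (∀ K ∈ LL, K ∈ KS) ∧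
    fl8T R455F5 LL T = true := by
  intro T hT
  have hT' : T = P7.TRI_0 ∨ T = P7.TRI_1 ∨ T = P7.TRI_2 ∨ T = P7.TRI_3 ∨ T = P7.TRI_4 ∨ T = P7.TRI_5 ∨ T = P7.TRI_6 ∨ T = P7.TRI_7 ∨ T = P7.TRI_8 ∨ T = P7.TRI_9 ∨ T = P7.TRI_10 ∨ T = P7.TRI_11 ∨ T = P7.TRI_12 ∨ T = P7.TRI_13 ∨ T = P7.TRI_14 ∨ T = P7.TRI_15 ∨ T = P7.TRI_16 ∨ T = P7.TRI_17 ∨ T = P7.TRI_18 ∨ T = P7.TRI_19 ∨ T = P7.TRI_20 ∨ T = P7.TRI_21 ∨ T = P7.TRI_22 ∨ T = P7.TRI_23 ∨ T = P7.TRI_24 ∨ T = P7.TRI_25 ∨ T = P7.TRI_26 ∨ T = P7.TRI_27 ∨ T = P7.TRI_28 ∨ T = P7.TRI_29 ∨ T = P7.TRI_30 ∨ T = P7.TRI_31 ∨ T = P7.TRI_32 ∨ T = P7.TRI_33 ∨ T = P7.TRI_34 ∨ T = P7.TRI_35 ∨ T = P7.TRI_36 ∨ T = P7.TRI_37 ∨ T = P7.TRI_38 ∨ T = P7.TRI_39 ∨ T = P7.TRI_40 ∨ T = P7.TRI_41 := by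
    simpa [P7.TRS] using hT
  rcases hT' with rfl | rfl | rfl | rfl | rfl | rfl | rfl | rfl | rfl | rfl | rfl | rfl | rfl | rfl | rfl | rfl | rfl | rfl | rfl | rfl | rfl | rfl | rfl | rfl | rfl | rfl | rfl | rfl | rfl | rfl | rfl | rfl | rfl | rfl | rfl | rfl | rfl | rfl | rfl | rfl | rfl | rfl
  · exact ⟨_, by simp [KS], fl_0⟩
  · exact ⟨_, by simp [KS], fl_1⟩
  · exact ⟨_, by simp [KS], fl_2⟩
  · exact ⟨_, by simp [KS], fl_3⟩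
  · exact ⟨_, by simp [KS], fl_4⟩
  · exact ⟨_, by simp [KS], fl_5⟩
  · exact ⟨_, by simp [KS], fl_6⟩
  · exact ⟨_, by simp [KS], fl_7⟩
  · exact ⟨_, by simp [KS], fl_8⟩
  · exact ⟨_, by simp [KS], fl_9⟩
  · exact ⟨_, by simp [KS], fl_10⟩
  · exact ⟨_, by simp [KS], fl_11⟩
  · exact ⟨_, by simp [KS], fl_12⟩
  · exact ⟨_, by simp [KS], fl_13⟩
  · exact ⟨_, by simp [KS], fl_14⟩
  · exact ⟨_, by simp [KS], fl_15⟩
  · exact ⟨_, by simp [KS], fl_16⟩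
  · exact ⟨_, by simp [KS], fl_17⟩
  · exact ⟨_, by simp [KS], fl_18⟩
  · exact ⟨_, by simp [KS], fl_19⟩
  · exact ⟨_, by simp [KS], fl_20⟩
  · exact ⟨_, by simp [KS], fl_21⟩
  · exact ⟨_, by simp [KS], fl_22⟩
  · exact ⟨_, by simp [KS], fl_23⟩
  · exact ⟨_, by simp [KS], fl_24⟩
  · exact ⟨_, by simp [KS], fl_25⟩
  · exact ⟨_, by simp [KS], fl_26⟩
  · exact ⟨_, by simp [KS], fl_27⟩
  · exact ⟨_, by simp [KS], fl_28⟩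
  · exact ⟨_, by simp [KS], fl_29⟩
  · exact ⟨_, by simp [KS], fl_30⟩
  · exact ⟨_, by simp [KS], fl_31⟩
  · exact ⟨_, by simp [KS], fl_32⟩
  · exact ⟨_, by simp [KS], fl_33⟩
  · exact ⟨_, by simp [KS], fl_34⟩
  · exact ⟨_, by simp [KS], fl_35⟩
  · exact ⟨_, by simp [KS], fl_36⟩
  · exact ⟨_, by simp [KS], fl_37⟩
  · exact ⟨_, by simp [KS], fl_38⟩
  · exact ⟨_, by simp [KS], fl_39⟩
  · exact ⟨_, by simp [KS], fl_40⟩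
  · exact ⟨_, by simp [KS], fl_41⟩

/-- **stage A2 of period seven** -/
theorem stageA2 {Q : ℕ} {a b c B m : ℤ} (S : Sys Q a b c B m) (hQ : 910 ∣ Q)
    (h : ∃ T ∈ P7.TRS, P7.InT (cd 13 a b c B m) (cd 7 a b c B m) (cd 5 a b c B m) T) :
    R8 a b c B m ∨ R8 (-a) (-b) (-c) (-B) m := by
  obtain ⟨T, hT, hI⟩ := h
  obtain ⟨LL, hLL, hf⟩ := fl_all T hT
  obtain ⟨K, hK, hm⟩ := fl8T_spec (R455F5_holds S hQ) hI hf
  exact step8 S hQ hm (ck_all K (hLL K hK))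

end Pool.Agent.Lib_helper29.P7A
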