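import Pool.Agent.Lib_helper29.P7A.Rels8
import Pool.Agent.Lib_helper29.P7A.Data8
import Pool.Agent.Lib_helper5.P7.Tri

/-! Period seven, stage A2: from the boxes and single classes to the final form. -/

namespace Pool.Agent.Lib_helper29.P7A

open Pool.Agent.Lib_helper5 Pool.Agent.Lib_helper5.LK Pool.Agent.Lib_helper5.TB
  Pool.Agent.LibH4 Pool.Agent.LibH4.Ker Pool.Agent.LibH4.S7

/-- code of the negative class -/
def ngc (n k : ℕ) : ℕ := ck n (ng n (ca n k)) (ng n (cb n k)) (ng n (cc n k)) (ng n (cB n k)) (cm n k)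

lemma ngc_cd {n : ℕ} [NeZero n] (a b c B m : ℤ) :
    ngc n (cd n a b c B m) = cd n (-a) (-b) (-c) (-B) m := by
  unfold ngc
  rw [ca_cd, cb_cd, cc_cd, cB_cd, cm_cd, ng_eq, ng_eq, ng_eq, ng_eq]
  rfl

/-- the negatives of the classes of a list lie in the other list -/
def negB (n : ℕ) (F F' : List ℕ) : Bool := allL (fun k => memN (ngc n k) F') F

lemma negB_spec {n : ℕ} {F F' : List ℕ} (h : negB n F F' = true) {k : ℕ} (hk : k ∈ F) :
    ngc n k ∈ F' := memN_spec (allL_spec h k hk)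

/-- negatives of a box -/
def nbx (b b' : Bx) : Bool :=
  @Bool.rec (fun _ => Bool) false
    (@Bool.rec (fun _ => Bool) false
      (@Bool.rec (fun _ => Bool) false (negB (nat_lit 8) b.F8 b'.F8)
        (negB (nat_lit 5) b.F5 b'.F5))
      (negB (nat_lit 7) b.F7 b'.F7))
    (negB (nat_lit 13) b.F13 b'.F13)

lemma nbx_spec {b b' : Bx} {a₁ b₁ c B m : ℤ} (h : nbx b b' = true)
    (h13 : cd 13 a₁ b₁ c B m ∈ b.F13) (h7 : cd 7 a₁ b₁ c B m ∈ b.F7)
    (h5 : cd 5 a₁ b₁ c B m ∈ b.F5) (h8 : cd 8 a₁ b₁ c B m ∈ b.F8) :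
    InB b' (-a₁) (-b₁) (-c) (-B) m := by
  obtain ⟨g13, g⟩ := boolrec_spec h
  obtain ⟨g7, g⟩ := boolrec_spec g
  obtain ⟨g5, g8⟩ := boolrec_spec g
  have e13 := negB_spec g13 h13
  have e7 := negB_spec g7 h7
  have e5 := negB_spec g5 h5
  have e8 := negB_spec g8 h8
  have f13 : ngc (nat_lit 13) (cd 13 a₁ b₁ c B m) = cd 13 (-a₁) (-b₁) (-c) (-B) m := ngc_cd _ _ _ _ _
  have f7 : ngc (nat_lit 7) (cd 7 a₁ b₁ c B m) = cd 7 (-a₁) (-b₁) (-c) (-B) m := ngc_cd _ _ _ _ _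
  have f5 : ngc (nat_lit 5) (cd 5 a₁ b₁ c B m) = cd 5 (-a₁) (-b₁) (-c) (-B) m := ngc_cd _ _ _ _ _
  have f8 : ngc (nat_lit 8) (cd 8 a₁ b₁ c B m) = cd 8 (-a₁) (-b₁) (-c) (-B) m := ngc_cd _ _ _ _ _
  rw [f13] at e13
  rw [f7] at e7
  rw [f5] at e5
  rw [f8] at e8
  exact ⟨e13, e7, e5, e8⟩

theorem NB_ok : allZ nbx NB PB = true := by decide +kernel

/-- a single class is in its box -/
def sgP (x : ℕ) (b : Bx) : Bool := inBx (lo x) (lo (hi x)) (lo (hi (hi x))) (hi (hi (hi x))) b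

/-- the negative of a single class is in its box -/
def sgN (x : ℕ) (b : Bx) : Bool :=
  inBx (ngc (nat_lit 13) (lo x)) (ngc (nat_lit 7) (lo (hi x))) (ngc (nat_lit 5) (lo (hi (hi x))))
    (ngc (nat_lit 8) (hi (hi (hi x)))) b

theorem SG7_ok : allZ sgP SG7 BG7 = true := by decide +kernel
theorem SG8_ok : allZ sgP SG8 BG8 = true := by decide +kernel
theorem SN7_ok : allZ sgN SN7 BG7 = true := by decide +kernel
theorem SN8_ok : allZ sgN SN8 BG8 = true := by decide +kernel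

theorem SG_eq : SG = SG7 ++ (SG8 ++ (SN7 ++ SN8)) := by decide +kernel
theorem AB_eq : AB = PB ++ NB := rfl
theorem PB_eq : PB = BG0 ++ (BG1 ++ (BG2 ++ (BG3 ++ (BG4 ++ (BG5 ++ BG6))))) := rfl

lemma allZ_mem {α β : Type} {f : α → β → Bool} {L : List α} {M : List β} (h : allZ f L M = true)
    {x : α} (hx : x ∈ L) : ∃ y ∈ M, f x y = true := by
  obtain ⟨h1, h2⟩ := allZ_spec h
  obtain ⟨i, hi, rfl⟩ := List.mem_iff_getElem.1 hx
  have hi' : i < M.length := by omega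
  exact ⟨M[i], List.getElem_mem hi', h2 i _ _ (List.getElem?_eq_getElem hi)
    (List.getElem?_eq_getElem hi')⟩

section

variable {a b c B m : ℤ}

lemma R8_PB {bx : Bx} (hb : bx ∈ PB) (h : InB bx a b c B m) : R8 a b c B m := by
  rw [PB_eq] at hb
  simp only [List.mem_append] at hb
  rcases hb with hb | hb | hb | hb | hb | hb | hb
  · exact ⟨BG0, by simp [BB], bx, hb, h⟩
  · exact ⟨BG1, by simp [BB], bx, hb, h⟩
  · exact ⟨BG2, by simp [BB], bx, hb, h⟩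
  · exact ⟨BG3, by simp [BB], bx, hb, h⟩
  · exact ⟨BG4, by simp [BB], bx, hb, h⟩
  · exact ⟨BG5, by simp [BB], bx, hb, h⟩
  · exact ⟨BG6, by simp [BB], bx, hb, h⟩

lemma R8_G7 {bx : Bx} (hb : bx ∈ BG7) (h : InB bx a b c B m) : R8 a b c B m :=
  ⟨BG7, by simp [BB], bx, hb, h⟩

lemma R8_G8 {bx : Bx} (hb : bx ∈ BG8) (h : InB bx a b c B m) : R8 a b c B m :=
  ⟨BG8, by simp [BB], bx, hb, h⟩

lemma tup4_parts : lo (tup4 (cd 13 a b c B m) (cd 7 a b c B m) (cd 5 a b c B m) (cd 8 a b c B m))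
      = cd 13 a b c B m ∧
    lo (hi (tup4 (cd 13 a b c B m) (cd 7 a b c B m) (cd 5 a b c B m) (cd 8 a b c B m)))
      = cd 7 a b c B m ∧
    lo (hi (hi (tup4 (cd 13 a b c B m) (cd 7 a b c B m) (cd 5 a b c B m) (cd 8 a b c B m))))
      = cd 5 a b c B m ∧
    hi (hi (hi (tup4 (cd 13 a b c B m) (cd 7 a b c B m) (cd 5 a b c B m) (cd 8 a b c B m))))
      = cd 8 a b c B m := by
  have h13 := cd_lt (n := 13) (by norm_num) a b c B m
  have h7 := cd_lt (n := 7) (by norm_num) a b c B m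
  have h5 := cd_lt (n := 5) (by norm_num) a b c B m
  unfold tup4
  rw [lo_pk h13, hi_pk h13, lo_pk h7, hi_pk h7, lo_pk h5, hi_pk h5]
  exact ⟨rfl, rfl, rfl, rfl⟩

lemma sgP_spec {bx : Bx}
    (h : sgP (tup4 (cd 13 a b c B m) (cd 7 a b c B m) (cd 5 a b c B m) (cd 8 a b c B m)) bx
      = true) : InB bx a b c B m := by
  obtain ⟨e1, e2, e3, e4⟩ := tup4_parts (a := a) (b := b) (c := c) (B := B) (m := m)
  unfold sgP at h
  rw [e1, e2, e3, e4] at h
  obtain ⟨h1, h2, h3, h4⟩ := inBx_spec h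
  exact ⟨h1, h2, h3, h4⟩

lemma sgN_spec {bx : Bx}
    (h : sgN (tup4 (cd 13 a b c B m) (cd 7 a b c B m) (cd 5 a b c B m) (cd 8 a b c B m)) bx
      = true) : InB bx (-a) (-b) (-c) (-B) m := by
  obtain ⟨e1, e2, e3, e4⟩ := tup4_parts (a := a) (b := b) (c := c) (B := B) (m := m)
  have f13 : ngc (nat_lit 13) (cd 13 a b c B m) = cd 13 (-a) (-b) (-c) (-B) m := ngc_cd _ _ _ _ _
  have f7 : ngc (nat_lit 7) (cd 7 a b c B m) = cd 7 (-a) (-b) (-c) (-B) m := ngc_cd _ _ _ _ _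
  have f5 : ngc (nat_lit 5) (cd 5 a b c B m) = cd 5 (-a) (-b) (-c) (-B) m := ngc_cd _ _ _ _ _
  have f8 : ngc (nat_lit 8) (cd 8 a b c B m) = cd 8 (-a) (-b) (-c) (-B) m := ngc_cd _ _ _ _ _
  unfold sgN at h
  rw [e1, e2, e3, e4, f13, f7, f5, f8] at h
  obtain ⟨h1, h2, h3, h4⟩ := inBx_spec h
  exact ⟨h1, h2, h3, h4⟩

/-- **the conclusion in terms of the boxes** -/
theorem good_R8 (h : Good AB SG (cd 13 a b c B m) (cd 7 a b c B m) (cd 5 a b c B m)
    (cd 8 a b c B m)) : R8 a b c B m ∨ R8 (-a) (-b) (-c) (-B) m := by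
  rcases h with ⟨bx, hb, h13, h7, h5, h8⟩ | hs
  · rw [AB_eq] at hb
    rcases List.mem_append.1 hb with hb | hb
    · exact Or.inl (R8_PB hb ⟨h13, h7, h5, h8⟩)
    · obtain ⟨b', hb', hn⟩ := allZ_mem NB_ok hb
      exact Or.inr (R8_PB hb' (nbx_spec hn h13 h7 h5 h8))
  · rw [SG_eq] at hs
    simp only [List.mem_append] at hs
    rcases hs with hs | hs | hs | hs
    · obtain ⟨b', hb', hn⟩ := allZ_mem SG7_ok hs
      exact Or.inl (R8_G7 hb' (sgP_spec hn))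
    · obtain ⟨b', hb', hn⟩ := allZ_mem SG8_ok hs
      exact Or.inl (R8_G8 hb' (sgP_spec hn))
    · obtain ⟨b', hb', hn⟩ := allZ_mem SN7_ok hs
      exact Or.inr (R8_G7 hb' (sgN_spec hn))
    · obtain ⟨b', hb', hn⟩ := allZ_mem SN8_ok hs
      exact Or.inr (R8_G8 hb' (sgN_spec hn))

end

/-- the scalar filter of a nested list of triples -/
noncomputable def fl8T (r : Rl) (LL : List (List ℕ)) (T : P7.TriL) : Bool :=
  allL (fun e => allL (fun f => allL (fun k5 =>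
    chkS r (nat_lit 13) (nat_lit 7) (nat_lit 5) e.1 f.1 k5 k5
      (anyM (pk e.1 (pk f.1 k5)) false LL)) f.2) e.2) T

theorem fl8T_spec {a b c B m : ℤ} (h : Holds R455F5 a b c B m) {LL : List (List ℕ)}
    {T : P7.TriL} (hT : P7.InT (cd 13 a b c B m) (cd 7 a b c B m) (cd 5 a b c B m) T)
    (hf : fl8T R455F5 LL T = true) :
    ∃ K ∈ LL, pk (cd 13 a b c B m) (pk (cd 7 a b c B m) (cd 5 a b c B m)) ∈ K := by
  obtain ⟨e, he, h13, f, hff, h7, h5⟩ := hT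
  have h1 := allL_spec (allL_spec (allL_spec hf e he) f hff) _ h5
  rw [h13, h7] at h1
  have h2 := R455F5_rc.chk h (dvd_refl _) (dvd_refl _) (dvd_refl _) (by norm_num) h1
  rcases anyM_spec h2 with h3 | h3
  · exact h3
  · exact absurd h3 (by simp)

/-- the step for one list of triples -/
theorem step8 {Q : ℕ} {a b c B m : ℤ} (S : Sys Q a b c B m) (hQ : 910 ∣ Q) {K : List ℕ}
    (hK : pk (cd 13 a b c B m) (pk (cd 7 a b c B m) (cd 5 a b c B m)) ∈ K)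
    (h : chk8 e8 AB SG K [nat_lit 1, nat_lit 3, nat_lit 5, nat_lit 7] = true) :
    R8 a b c B m ∨ R8 (-a) (-b) (-c) (-B) m := by
  have had : adO (rs 8 m) (rs 8 B) (rs 8 (-1)) = true := by
    have h1 := adO_of S (n := 8) (by norm_num) ⟨m, B, -1, 0, -B⟩ (by
      simp [J7])
    exact h1
  have hB : rs 8 B ∈ [nat_lit 1, nat_lit 3, nat_lit 5, nat_lit 7] := by
    have h1 : ((rs 8 B : ℕ) : ℤ) = B % 8 := by
      unfold rs
      rw [ZMod.val_intCast]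
      rfl
    have h2 := S.oB
    have h3 : rs 8 B = 1 ∨ rs 8 B = 3 ∨ rs 8 B = 5 ∨ rs 8 B = 7 := by omega
    rcases h3 with h3 | h3 | h3 | h3 <;> rw [h3] <;> decide
  exact good_R8 (chk8_spec e8_ok (e8_holds S hQ) S.cl had hB hK h)

end Pool.Agent.Lib_helper29.P7A
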