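import Pool.Agent.Lib_helper5.P7.Tri
import Pool.Agent.Lib_helper5.P7.Par
import Pool.Agent.Lib_helper4.S7.Code
import Pool.Agent.Lib_helper4.S7.Loop

/-!
Period seven: lookup of a class (or of its negative) in a nested list of codes.
-/

namespace Pool.Agent.Lib_helper29.P7A

open Pool.Agent.Lib_helper5 Pool.Agent.Lib_helper5.LK Pool.Agent.Lib_helper5.TB
  Pool.Agent.Lib_helper5.P7 Pool.Agent.LibH4 Pool.Agent.LibH4.Ker Pool.Agent.LibH4.S7

/-- lookup of the codes modulo `7`, `5` -/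
noncomputable def lk7 (k7 k5 : ℕ) (L : List (ℕ × List ℕ)) : Bool :=
  @List.rec _ (fun _ => Bool) false
    (fun f _ ih => @Bool.rec (fun _ => Bool) ih
      (@Bool.rec (fun _ => Bool) ih true (memN k5 f.2)) (Nat.beq k7 f.1)) L

/-- lookup of the codes modulo `13`, `7`, `5` -/
noncomputable def lk13 (k13 k7 k5 : ℕ) (T : TriL) : Bool :=
  @List.rec _ (fun _ => Bool) false
    (fun e _ ih => @Bool.rec (fun _ => Bool) ih
      (@Bool.rec (fun _ => Bool) ih true (lk7 k7 k5 e.2)) (Nat.beq k13 e.1)) T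

lemma lk7_spec {k7 k5 : ℕ} {L : List (ℕ × List ℕ)} (h : lk7 k7 k5 L = true) :
    ∃ f ∈ L, f.1 = k7 ∧ k5 ∈ f.2 := by
  induction L with
  | nil => exact absurd h (by simp [lk7])
  | cons f L ih =>
    have tl : lk7 k7 k5 L = true → ∃ g ∈ f :: L, g.1 = k7 ∧ k5 ∈ g.2 := by
      intro h1
      obtain ⟨g, hg, h2⟩ := ih h1
      exact ⟨g, List.mem_cons_of_mem _ hg, h2⟩
    have h' : @Bool.rec (fun _ => Bool) (lk7 k7 k5 L)
      (@Bool.rec (fun _ => Bool) (lk7 k7 k5 L) true (memN k5 f.2)) (Nat.beq k7 f.1) = true := h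
    cases hb : Nat.beq k7 f.1 with
    | false => rw [hb] at h'; exact tl h'
    | true =>
      rw [hb] at h'
      cases hm : memN k5 f.2 with
      | false => rw [hm] at h'; exact tl h'
      | true => exact ⟨f, List.mem_cons_self, (Nat.eq_of_beq_eq_true hb).symm, memN_spec hm⟩

lemma lk13_spec {k13 k7 k5 : ℕ} {T : TriL} (h : lk13 k13 k7 k5 T = true) :
    InT k13 k7 k5 T := by
  induction T with
  | nil => exact absurd h (by simp [lk13])
  | cons e T ih =>
    have tl : lk13 k13 k7 k5 T = true → InT k13 k7 k5 (e :: T) := by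
      intro h1
      obtain ⟨g, hg, h2⟩ := ih h1
      exact ⟨g, List.mem_cons_of_mem _ hg, h2⟩
    have h' : @Bool.rec (fun _ => Bool) (lk13 k13 k7 k5 T)
      (@Bool.rec (fun _ => Bool) (lk13 k13 k7 k5 T) true (lk7 k7 k5 e.2))
        (Nat.beq k13 e.1) = true := h
    cases hb : Nat.beq k13 e.1 with
    | false => rw [hb] at h'; exact tl h'
    | true =>
      rw [hb] at h'
      cases hm : lk7 k7 k5 e.2 with
      | false => rw [hm] at h'; exact tl h'
      | true => exact ⟨e, List.mem_cons_self, (Nat.eq_of_beq_eq_true hb).symm, lk7_spec hm⟩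

/-- code of the data of a class -/
noncomputable def ckD (n : ℕ) (D : CD) : ℕ :=
  @CD.rec (fun _ => ℕ) (fun a b c B m _ _ _ _ _ _ _ => ck n a b c B m) D

/-- code of the negative of the data of a class -/
noncomputable def ckN (n : ℕ) (D : CD) : ℕ :=
  @CD.rec (fun _ => ℕ) (fun a b c B m _ _ _ _ _ _ _ =>
    ck n (ng n a) (ng n b) (ng n c) (ng n B) m) D

/-- the sign of a class modulo `13` -/
noncomputable def sg13 (a B : ℕ) : Bool :=
  @Bool.rec (fun _ => Bool) (Nat.ble B (nat_lit 6)) (Nat.ble a (nat_lit 6)) (Nat.beq B (nat_lit 0))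

/-- **the leaf**: a class or its negative is in the list -/
noncomputable def lf (T : TriL) (a b c B m : ℕ) (D7 D5 : CD) : Bool :=
  @Bool.rec (fun _ => Bool)
    (strict (ck (nat_lit 13) (ng (nat_lit 13) a) (ng (nat_lit 13) b) (ng (nat_lit 13) c)
        (ng (nat_lit 13) B) m) fun k13 =>
      strict (ckN (nat_lit 7) D7) fun k7 => strict (ckN (nat_lit 5) D5) fun k5 =>
        lk13 k13 k7 k5 T)
    (strict (ck (nat_lit 13) a b c B m) fun k13 =>
      strict (ckD (nat_lit 7) D7) fun k7 => strict (ckD (nat_lit 5) D5) fun k5 =>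
        lk13 k13 k7 k5 T)
    (sg13 a B)

/-- code of the negative class, in residues -/
lemma ck_neg {n : ℕ} [NeZero n] (a b c B m : ℤ) :
    ck n (ng n (rs n a)) (ng n (rs n b)) (ng n (rs n c)) (ng n (rs n B)) (rs n m) =
      cd n (-a) (-b) (-c) (-B) m := by
  rw [ng_eq, ng_eq, ng_eq, ng_eq]
  rfl

theorem lf_spec {T : TriL} {a b c B m : ℤ}
    (h : lf T (rs 13 a) (rs 13 b) (rs 13 c) (rs 13 B) (rs 13 m)
      (cdx 7 5 PT7 a b c B m) (cdx 5 3 PT5 a b c B m) = true) :
    InT (cd 13 a b c B m) (cd 7 a b c B m) (cd 5 a b c B m) T ∨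
      InT (cd 13 (-a) (-b) (-c) (-B) m) (cd 7 (-a) (-b) (-c) (-B) m)
        (cd 5 (-a) (-b) (-c) (-B) m) T := by
  unfold lf at h
  simp only [strict_eq] at h
  cases hs : sg13 (rs 13 a) (rs 13 B) with
  | true =>
    rw [hs] at h
    exact Or.inl (lk13_spec h)
  | false =>
    rw [hs] at h
    have e13 : ck (nat_lit 13) (ng (nat_lit 13) (rs 13 a)) (ng (nat_lit 13) (rs 13 b))
        (ng (nat_lit 13) (rs 13 c)) (ng (nat_lit 13) (rs 13 B)) (rs 13 m) =
        cd 13 (-a) (-b) (-c) (-B) m := ck_neg a b c B m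
    have e7 : ckN (nat_lit 7) (cdx 7 5 PT7 a b c B m) = cd 7 (-a) (-b) (-c) (-B) m :=
      ck_neg (n := 7) a b c B m
    have e5 : ckN (nat_lit 5) (cdx 5 3 PT5 a b c B m) = cd 5 (-a) (-b) (-c) (-B) m :=
      ck_neg (n := 5) a b c B m
    rw [e13, e7, e5] at h
    exact Or.inr (lk13_spec h)

end Pool.Agent.Lib_helper29.P7A
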