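import Pool.Agent.Lib_helper29.P7A.Tr
import Pool.Agent.Lib_helper5.P7.Eng

/-!
Period seven, stage A2: the loop over the classes modulo `8`.
-/

namespace Pool.Agent.Lib_helper29.P7A

open Pool.Agent.Lib_helper5 Pool.Agent.Lib_helper5.LK Pool.Agent.Lib_helper5.TB
  Pool.Agent.Lib_helper5.Lane Pool.Agent.LibH4 Pool.Agent.LibH4.Ker Pool.Agent.LibH4.S7

/-- level of `m` -/
def wM8 (k : CB) (B m : ℕ) : Bool :=
  @Bool.rec (fun _ => Bool) true
    (strict (pos (nat_lit 8) (nat_lit 1) PT8 m B (nat_lit 7)) fun q0 =>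
    strict (pos (nat_lit 8) (nat_lit 1) PT8 (nat_lit 1) B (ng (nat_lit 8) m)) fun q1 =>
    strict (ng (nat_lit 8) B) fun A0 =>
      allR (wA (nat_lit 8) (nat_lit 1) PT8 k B m q0 q1 A0) (nat_lit 8))
    (adO m B (nat_lit 7))

/-- level of `B` -/
def wB8 (k : CB) (B : ℕ) : Bool := allR (wM8 k B) (nat_lit 8)

/-- **the loop over the classes modulo 8** -/
theorem wB8_spec {k : CB} {a b c B m : ℤ} (hcl : Cl a b c B m)
    (had : adO (rs 8 m) (rs 8 B) (rs 8 (-1)) = true) (h : wB8 k (rs 8 B) = true) :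
    k (rs 8 B) (rs 8 m) (rs 8 a) (rs 8 b) (rs 8 c) (rs 8 (y2 a B m)) (rs 8 (y3 a b B m))
      (qz 8 1 PT8 a b c B m 0) (qz 8 1 PT8 a b c B m 1) (qz 8 1 PT8 a b c B m 2)
      (qz 8 1 PT8 a b c B m 3) (qz 8 1 PT8 a b c B m 4) (rs 8 (-B)) (rs 8 (-(2 * a)))
      (rs 8 (-(2 * b))) (rs 8 (-(2 * c))) = true := by
  have h1 := allR_spec h (rs 8 m) (rs_lt m)
  unfold wM8 at h1
  have e7 : rs 8 (-1) = 7 := rs_neg_one_of (p := 8) (by norm_num)
  rw [e7] at had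
  have had' : adO (rs 8 m) (rs 8 B) (nat_lit 7) = true := had
  rw [had'] at h1
  simp only [strict_eq] at h1
  have h2 := allR_spec h1 (rs 8 a) (rs_lt a)
  unfold wA at h2
  simp only [strict_eq] at h2
  have g2 : u2 (nat_lit 8) (rs 8 a) (rs 8 B) (rs 8 m) = rs 8 (y2 a B m) := u2_eq
  have g3 : v2 (nat_lit 8) (rs 8 a) (rs 8 B) (rs 8 m) = rs 8 (r2 a B m) := v2_eq
  rw [g2, g3] at h2
  have h3 := allR_spec h2 (rs 8 b) (rs_lt b)
  unfold wBb at h3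
  simp only [strict_eq] at h3
  have g4 : u3 (nat_lit 8) (rs 8 b) (rs 8 m) (rs 8 (y2 a B m)) (rs 8 (r2 a B m)) =
    rs 8 (y3 a b B m) := u3_eq
  have g5 : v3 (nat_lit 8) (rs 8 b) (rs 8 (y2 a B m)) (rs 8 (r2 a B m)) = rs 8 (r3 a b B m) :=
    v3_eq
  rw [g4, g5] at h3
  have h4 := allL_spec h3 (rs 8 c) (mem_roots hcl)
  unfold wC at h4
  simp only [strict_eq] at h4
  have g6 : v3 (nat_lit 8) (rs 8 c) (rs 8 (y3 a b B m)) (rs 8 (r3 a b B m)) =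
    rs 8 (r4 a b c B m) := v4_eq
  have gn : ∀ x : ℤ, ng (nat_lit 8) (rs 8 x) = rs 8 (-x) := fun x => ng_eq x
  have gn2 : ∀ x : ℤ, ng (nat_lit 8) (Nat.mul (nat_lit 2) (rs 8 x)) = rs 8 (-(2 * x)) :=
    fun x => ng2_eq x
  rw [g6, gn, gn, gn, gn, gn2, gn2, gn2] at h4
  have e0 : pos (nat_lit 8) (nat_lit 1) PT8 (rs 8 m) (rs 8 B) (nat_lit 7) =
      qz 8 1 PT8 a b c B m 0 := by
    have : qz 8 1 PT8 a b c B m 0 = pos 8 1 PT8 (rs 8 m) (rs 8 B) (rs 8 (-1)) := rfl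
    rw [this, e7]
  have e1 : pos (nat_lit 8) (nat_lit 1) PT8 (nat_lit 1) (rs 8 B) (rs 8 (-m)) =
      qz 8 1 PT8 a b c B m 1 := by
    have : qz 8 1 PT8 a b c B m 1 = pos 8 1 PT8 (rs 8 1) (rs 8 B) (rs 8 (-m)) := rfl
    rw [this, rs_one_of (by norm_num)]
  rw [e0, e1] at h4
  exact h4

/-- one more relation in the lanes -/
noncomputable def l8m (l n V M : ℕ) (k : ℕ → Bool) : Bool :=
  @Bool.rec (fun _ => Bool) (k (Nat.land M (msk l n V))) true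
    (Nat.beq (Nat.land M (msk l n V)) (nat_lit 0))

lemma l8m_spec {l n V M i : ℕ} {k : ℕ → Bool} (h : l8m l n V M k = true)
    (h1 : M.testBit i = true) (h2 : (msk l n V).testBit i = true) :
    ∃ M', M'.testBit i = true ∧ k M' = true := by
  unfold l8m at h
  have b := land_bit h1 h2
  have b0 := ne_zero_of_bit b
  rw [b0] at h
  exact ⟨_, b, h⟩

/-- code of a quadruple -/
def tup4 (k13 k7 k5 k8 : ℕ) : ℕ := pk k13 (pk k7 (pk k5 k8))

/-- the lists of classes modulo 8 of the boxes which contain a triple -/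
noncomputable def selB (k13 k7 k5 : ℕ) (BS : List Bx) : List (List ℕ) :=
  @List.rec Bx (fun _ => List (List ℕ)) []
    (fun bx _ ih =>
      @Bool.rec (fun _ => List (List ℕ)) ih
        (@Bool.rec (fun _ => List (List ℕ)) ih
          (@Bool.rec (fun _ => List (List ℕ)) ih (bx.F8 :: ih) (memN k5 bx.F5))
          (memN k7 bx.F7)) (memN k13 bx.F13)) BS

/-- membership in one of the lists -/
noncomputable def anyM (k8 : ℕ) (z : Bool) (LL : List (List ℕ)) : Bool :=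
  @List.rec (List ℕ) (fun _ => Bool) z
    (fun F _ ih => @Bool.rec (fun _ => Bool) ih true (memN k8 F)) LL

/-- the conclusion of the step -/
def Good (BS : List Bx) (SG : List ℕ) (k13 k7 k5 k8 : ℕ) : Prop :=
  (∃ bx ∈ BS, k13 ∈ bx.F13 ∧ k7 ∈ bx.F7 ∧ k5 ∈ bx.F5 ∧ k8 ∈ bx.F8) ∨ tup4 k13 k7 k5 k8 ∈ SG

lemma selB_spec {k13 k7 k5 : ℕ} {BS : List Bx} {F : List ℕ} (h : F ∈ selB k13 k7 k5 BS) :
    ∃ bx ∈ BS, k13 ∈ bx.F13 ∧ k7 ∈ bx.F7 ∧ k5 ∈ bx.F5 ∧ F = bx.F8 := by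
  induction BS with
  | nil => exact absurd h (by simp [selB])
  | cons bx BS ih =>
    have tl : F ∈ selB k13 k7 k5 BS →
        ∃ b ∈ bx :: BS, k13 ∈ b.F13 ∧ k7 ∈ b.F7 ∧ k5 ∈ b.F5 ∧ F = b.F8 := by
      intro h1
      obtain ⟨b, hb, g⟩ := ih h1
      exact ⟨b, List.mem_cons_of_mem _ hb, g⟩
    have h' : F ∈ @Bool.rec (fun _ => List (List ℕ)) (selB k13 k7 k5 BS)
        (@Bool.rec (fun _ => List (List ℕ)) (selB k13 k7 k5 BS)
          (@Bool.rec (fun _ => List (List ℕ)) (selB k13 k7 k5 BS) (bx.F8 :: selB k13 k7 k5 BS)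
            (memN k5 bx.F5))
          (memN k7 bx.F7)) (memN k13 bx.F13) := h
    cases h13 : memN k13 bx.F13 with
    | false => rw [h13] at h'; exact tl h'
    | true =>
      rw [h13] at h'
      cases h7 : memN k7 bx.F7 with
      | false => rw [h7] at h'; exact tl h'
      | true =>
        rw [h7] at h'
        cases h5 : memN k5 bx.F5 with
        | false => rw [h5] at h'; exact tl h'
        | true =>
          rw [h5] at h'
          rcases List.mem_cons.1 h' with h8 | h8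
          · exact ⟨bx, List.mem_cons_self, memN_spec h13, memN_spec h7, memN_spec h5, h8⟩
          · exact tl h8

lemma anyM_spec {k8 : ℕ} {z : Bool} {LL : List (List ℕ)} (h : anyM k8 z LL = true) :
    (∃ F ∈ LL, k8 ∈ F) ∨ z = true := by
  induction LL with
  | nil => exact Or.inr h
  | cons F LL ih =>
    have h' : @Bool.rec (fun _ => Bool) (anyM k8 z LL) true (memN k8 F) = true := h
    cases hm : memN k8 F with
    | true => exact Or.inl ⟨F, List.mem_cons_self, memN_spec hm⟩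
    | false =>
      rw [hm] at h'
      rcases ih h' with ⟨G, hG, hk⟩ | hz
      · exact Or.inl ⟨G, List.mem_cons_of_mem _ hG, hk⟩
      · exact Or.inr hz

/-- a quadruple is in a box or in the list -/
noncomputable def inBS (BS : List Bx) (SG : List ℕ) (k13 k7 k5 k8 : ℕ) : Bool :=
  anyM k8 (memN (tup4 k13 k7 k5 k8) SG) (selB k13 k7 k5 BS)

lemma inBS_spec {SG : List ℕ} {k13 k7 k5 k8 : ℕ} {BS : List Bx}
    (h : inBS BS SG k13 k7 k5 k8 = true) : Good BS SG k13 k7 k5 k8 := by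
  rcases anyM_spec h with ⟨F, hF, hk⟩ | hz
  · obtain ⟨bx, hb, h1, h2, h3, rfl⟩ := selB_spec hF
    exact Or.inl ⟨bx, hb, h1, h2, h3, hk⟩
  · exact Or.inr (memN_spec hz)

/-- class modulo 13 of a packed triple -/
def g13 (x : ℕ) : ℕ := lo x
/-- class modulo 7 of a packed triple -/
def g7 (x : ℕ) : ℕ := lo (hi x)
/-- class modulo 5 of a packed triple -/
def g5 (x : ℕ) : ℕ := hi (hi x)

/-- lookup; the intermediate lists are remembered by the kernel -/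
noncomputable def nthM (L : List ℕ) (j : ℕ) : ℕ :=
  @List.rec _ (fun _ => ℕ) (nat_lit 0) (fun x _ _ => x) (P7.drp L j)

lemma drp_eq {α : Type} (L : List α) (j : ℕ) : P7.drp L j = L.drop j := by
  induction j with
  | zero => rfl
  | succ j ih =>
    change P7.tlL (P7.drp L j) = _
    rw [ih]
    have : ∀ M : List α, P7.tlL M = M.tail := fun M => by cases M <;> rfl
    rw [this, List.tail_drop]

lemma nthM_eq {L : List ℕ} {i : ℕ} (h : i < L.length) : nthM L i = L[i] := by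
  unfold nthM
  rw [drp_eq, List.drop_eq_getElem_cons h]

/-- a lane -/
noncomputable def l8l (BS : List Bx) (SG K : List ℕ) (k8 i : ℕ) : Bool :=
  inBS BS SG (g13 (nthM K i)) (g7 (nthM K i)) (g5 (nthM K i)) k8

/-- the relations of the step -/
structure E8 where
  /-- relation -/
  r0 : Rl
  /-- relation -/
  r1 : Rl
  /-- relation -/
  r2 : Rl
  /-- relation -/
  r3 : Rl
  /-- relation -/
  r4 : Rl
  /-- relation -/
  r5 : Rl
  /-- relation -/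
  r6 : Rl
  /-- relation -/
  r7 : Rl
  /-- relation -/
  r8 : Rl
  /-- relation -/
  r9 : Rl

/-- the components -/
structure E8OK (E : E8) : Prop where
  c0 : RC E.r0 8 7 5 13
  c1 : RC E.r1 8 13 5 13
  c2 : RC E.r2 8 13 7 13
  c3 : RC E.r3 8 13 7 13
  c4 : RC E.r4 8 13 7 13
  c5 : RC E.r5 8 7 5 7
  c6 : RC E.r6 8 13 7 7
  c7 : RC E.r7 8 13 5 7
  c8 : RC E.r8 8 13 5 5
  c9 : RC E.r9 8 13 7 5
  x0 : E.r0.ex1 = 1
  x1 : E.r1.ex1 = 1
  x2 : E.r2.ex1 = 1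
  x3 : E.r3.ex1 = 1
  x4 : E.r4.ex1 = 1
  x5 : E.r5.ex1 = 1
  x6 : E.r6.ex1 = 1
  x7 : E.r7.ex1 = 1
  x8 : E.r8.ex1 = 1
  x9 : E.r9.ex1 = 1
  p0 : E.r0.PT1 = PT8
  p1 : E.r1.PT1 = PT8
  p2 : E.r2.PT1 = PT8
  p3 : E.r3.PT1 = PT8
  p4 : E.r4.PT1 = PT8
  p5 : E.r5.PT1 = PT8
  p6 : E.r6.PT1 = PT8
  p7 : E.r7.PT1 = PT8
  p8 : E.r8.PT1 = PT8
  p9 : E.r9.PT1 = PT8

/-- the relations hold -/
structure E8H (E : E8) (a b c B m : ℤ) : Prop where
  r0 : Holds E.r0 a b c B m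
  r1 : Holds E.r1 a b c B m
  r2 : Holds E.r2 a b c B m
  r3 : Holds E.r3 a b c B m
  r4 : Holds E.r4 a b c B m
  r5 : Holds E.r5 a b c B m
  r6 : Holds E.r6 a b c B m
  r7 : Holds E.r7 a b c B m
  r8 : Holds E.r8 a b c B m
  r9 : Holds E.r9 a b c B m

/-- check of a class modulo 8 -/
noncomputable def l8w (E : E8) (BS : List Bx) (SG K : List ℕ) (S0 S1 S2 S3 S4 S5 S6 S7 S8 S9 : L5) : CB :=
  fun B m a b c m2 m3 q0 q1 q2 q3 q4 _ _ _ _ =>
  l8m (nat_lit 13) K.length (FK E.r1 S1 m m2 m3 q0 q1 q2 q3 q4)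
    (msk (nat_lit 13) K.length (FK E.r0 S0 m m2 m3 q0 q1 q2 q3 q4)) fun M1 =>
  l8m (nat_lit 13) K.length (FK E.r2 S2 m m2 m3 q0 q1 q2 q3 q4) M1 fun M2 =>
  l8m (nat_lit 13) K.length (FK E.r3 S3 m m2 m3 q0 q1 q2 q3 q4) M2 fun M3 =>
  l8m (nat_lit 13) K.length (FK E.r4 S4 m m2 m3 q0 q1 q2 q3 q4) M3 fun M4 =>
  l8m (nat_lit 7) K.length (FK E.r5 S5 m m2 m3 q0 q1 q2 q3 q4) M4 fun M5 =>
  l8m (nat_lit 7) K.length (FK E.r6 S6 m m2 m3 q0 q1 q2 q3 q4) M5 fun M6 =>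
  l8m (nat_lit 7) K.length (FK E.r7 S7 m m2 m3 q0 q1 q2 q3 q4) M6 fun M7 =>
  l8m (nat_lit 5) K.length (FK E.r8 S8 m m2 m3 q0 q1 q2 q3 q4) M7 fun M8 =>
  l8m (nat_lit 5) K.length (FK E.r9 S9 m m2 m3 q0 q1 q2 q3 q4) M8 fun M9 =>
  enumT (l8l BS SG K (ck (nat_lit 8) a b c B m)) K.length M9

/-- **check of a list of triples** -/
noncomputable def chk8 (E : E8) (BS : List Bx) (SG K Bs : List ℕ) : Bool :=
  mkL5 (fun j x => ldK E.r0 (nat_lit 7) (nat_lit 5) (g7 x) (g5 x) (g13 x) j) K fun S0 =>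
  mkL5 (fun j x => ldK E.r1 (nat_lit 13) (nat_lit 5) (g13 x) (g5 x) (g13 x) j) K fun S1 =>
  mkL5 (fun j x => ldK E.r2 (nat_lit 13) (nat_lit 7) (g13 x) (g7 x) (g13 x) j) K fun S2 =>
  mkL5 (fun j x => ldK E.r3 (nat_lit 13) (nat_lit 7) (g13 x) (g7 x) (g13 x) j) K fun S3 =>
  mkL5 (fun j x => ldK E.r4 (nat_lit 13) (nat_lit 7) (g13 x) (g7 x) (g13 x) j) K fun S4 =>
  mkL5 (fun j x => ldK E.r5 (nat_lit 7) (nat_lit 5) (g7 x) (g5 x) (g7 x) j) K fun S5 =>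
  mkL5 (fun j x => ldK E.r6 (nat_lit 13) (nat_lit 7) (g13 x) (g7 x) (g7 x) j) K fun S6 =>
  mkL5 (fun j x => ldK E.r7 (nat_lit 13) (nat_lit 5) (g13 x) (g5 x) (g7 x) j) K fun S7 =>
  mkL5 (fun j x => ldK E.r8 (nat_lit 13) (nat_lit 5) (g13 x) (g5 x) (g5 x) j) K fun S8 =>
  mkL5 (fun j x => ldK E.r9 (nat_lit 13) (nat_lit 7) (g13 x) (g7 x) (g5 x) j) K fun S9 =>
    allL (wB8 (l8w E BS SG K S0 S1 S2 S3 S4 S5 S6 S7 S8 S9)) Bs

/-- **the step to 8** -/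
theorem chk8_spec {E : E8} {a b c B m : ℤ} (hE : E8OK E) (hH : E8H E a b c B m)
    (hcl : Cl a b c B m) (had : adO (rs 8 m) (rs 8 B) (rs 8 (-1)) = true) {BS : List Bx}
    {SG K Bs : List ℕ} (hB : rs 8 B ∈ Bs)
    (hK : pk (cd 13 a b c B m) (pk (cd 7 a b c B m) (cd 5 a b c B m)) ∈ K)
    (h : chk8 E BS SG K Bs = true) :
    Good BS SG (cd 13 a b c B m) (cd 7 a b c B m) (cd 5 a b c B m) (cd 8 a b c B m) := by
  unfold chk8 at h
  simp only [mkL5_eq] at h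
  have h1 := wB8_spec hcl had (allL_spec h _ hB)
  unfold l8w at h1
  have h13 := cd_lt (n := 13) (by norm_num) a b c B m
  have h7 := cd_lt (n := 7) (by norm_num) a b c B m
  obtain ⟨i, hi, hx⟩ := List.mem_iff_getElem.1 hK
  have e13 : g13 K[i] = cd 13 a b c B m := by rw [hx]; exact lo_pk h13
  have e7 : g7 K[i] = cd 7 a b c B m := by
    unfold g7; rw [hx, hi_pk h13, lo_pk h7]
  have e5 : g5 K[i] = cd 5 a b c B m := by
    unfold g5; rw [hx, hi_pk h13, hi_pk h7]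
  have b0 := hE.c0.FK hE.x0 hE.p0 hH.r0 (by norm_num) (dvd_refl 7) (dvd_refl 5) lok13
    (k2 := g7) (k3 := g5) (kl := g13) hi e7 e5 e13
  have b1 := hE.c1.FK hE.x1 hE.p1 hH.r1 (by norm_num) (dvd_refl 13) (dvd_refl 5) lok13
    (k2 := g13) (k3 := g5) (kl := g13) hi e13 e5 e13
  have b2 := hE.c2.FK hE.x2 hE.p2 hH.r2 (by norm_num) (dvd_refl 13) (dvd_refl 7) lok13
    (k2 := g13) (k3 := g7) (kl := g13) hi e13 e7 e13
  have b3 := hE.c3.FK hE.x3 hE.p3 hH.r3 (by norm_num) (dvd_refl 13) (dvd_refl 7) lok13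
    (k2 := g13) (k3 := g7) (kl := g13) hi e13 e7 e13
  have b4 := hE.c4.FK hE.x4 hE.p4 hH.r4 (by norm_num) (dvd_refl 13) (dvd_refl 7) lok13
    (k2 := g13) (k3 := g7) (kl := g13) hi e13 e7 e13
  have b5 := hE.c5.FK hE.x5 hE.p5 hH.r5 (by norm_num) (dvd_refl 7) (dvd_refl 5) lok7
    (k2 := g7) (k3 := g5) (kl := g7) hi e7 e5 e7
  have b6 := hE.c6.FK hE.x6 hE.p6 hH.r6 (by norm_num) (dvd_refl 13) (dvd_refl 7) lok7
    (k2 := g13) (k3 := g7) (kl := g7) hi e13 e7 e7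
  have b7 := hE.c7.FK hE.x7 hE.p7 hH.r7 (by norm_num) (dvd_refl 13) (dvd_refl 5) lok7
    (k2 := g13) (k3 := g5) (kl := g7) hi e13 e5 e7
  have b8 := hE.c8.FK hE.x8 hE.p8 hH.r8 (by norm_num) (dvd_refl 13) (dvd_refl 5) lok5
    (k2 := g13) (k3 := g5) (kl := g5) hi e13 e5 e5
  have b9 := hE.c9.FK hE.x9 hE.p9 hH.r9 (by norm_num) (dvd_refl 13) (dvd_refl 7) lok5
    (k2 := g13) (k3 := g7) (kl := g5) hi e13 e7 e5
  obtain ⟨M1, m1, h2⟩ := l8m_spec h1 b0 b1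
  obtain ⟨M2, m2, h3⟩ := l8m_spec h2 m1 b2
  obtain ⟨M3, m3, h4⟩ := l8m_spec h3 m2 b3
  obtain ⟨M4, m4, h5⟩ := l8m_spec h4 m3 b4
  obtain ⟨M5, m5, h6⟩ := l8m_spec h5 m4 b5
  obtain ⟨M6, m6, h8⟩ := l8m_spec h6 m5 b6
  obtain ⟨M7, m7, h9⟩ := l8m_spec h8 m6 b7
  obtain ⟨M8, m8, h10⟩ := l8m_spec h9 m7 b8
  obtain ⟨M9, m9, h11⟩ := l8m_spec h10 m8 b9
  have h12 := enumT_spec h11 i hi m9
  unfold l8l at h12
  rw [nthM_eq hi, e13, e7, e5] at h12
  exact inBS_spec h12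

/-- the scalar filter of the triples -/
def fl8 (r : Rl) (K : List ℕ) (T : List ℕ) : Bool :=
  allL (fun x => strict (lo x) fun k13 => strict (lo (hi x)) fun k7 => strict (hi (hi x)) fun k5 =>
    chkS r (nat_lit 13) (nat_lit 7) (nat_lit 5) k13 k7 k5 k5 (memN x K)) T

theorem fl8_spec {r : Rl} {a b c B m : ℤ} (rc : RC r 13 7 5 5) (h : Holds r a b c B m)
    {K T : List ℕ} (hT : pk (cd 13 a b c B m) (pk (cd 7 a b c B m) (cd 5 a b c B m)) ∈ T)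
    (hf : fl8 r K T = true) :
    pk (cd 13 a b c B m) (pk (cd 7 a b c B m) (cd 5 a b c B m)) ∈ K := by
  have h1 := allL_spec hf _ hT
  have h13 := cd_lt (n := 13) (by norm_num) a b c B m
  have h7 := cd_lt (n := 7) (by norm_num) a b c B m
  simp only [strict_eq] at h1
  rw [lo_pk h13, hi_pk h13, lo_pk h7, hi_pk h7] at h1
  exact memN_spec (rc.chk h (dvd_refl _) (dvd_refl _) (dvd_refl _) (by norm_num) h1)

end Pool.Agent.Lib_helper29.P7A
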