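import Pool.Agent.Lib_helper29.P7A.Loop8
import Pool.Agent.Lib_helper29.P7A.Q_140N13
import Pool.Agent.Lib_helper29.P7A.Q_260F13
import Pool.Agent.Lib_helper29.P7A.Q_364F13a
import Pool.Agent.Lib_helper29.P7A.Q_364F13b
import Pool.Agent.Lib_helper29.P7A.Q_728F13
import Pool.Agent.Lib_helper29.P7A.Q_280F7
import Pool.Agent.Lib_helper29.P7A.Q_728F7
import Pool.Agent.Lib_helper29.P7A.Q_520N7
import Pool.Agent.Lib_helper29.P7A.Q_520F5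
import Pool.Agent.Lib_helper29.P7A.Q_728N5
import Pool.Agent.Lib_helper5.P7.T_455F5

/-! generated: the relations of the step -/

namespace Pool.Agent.Lib_helper29.P7A

open Pool.Agent.Lib_helper5 Pool.Agent.Lib_helper5.LK Pool.Agent.Lib_helper5.TB
  Pool.Agent.LibH4 Pool.Agent.LibH4.Ker Pool.Agent.LibH4.S7

/-- relation -/
def R455F5 : Rl :=
  ⟨(nat_lit 13), (nat_lit 7), (nat_lit 5), (nat_lit 5), (nat_lit 11), (nat_lit 5), (nat_lit 3), PT13, PT7, PT5, t1_455F5, t2_455F5, t3_455F5, rows_455F5, (nat_lit 10)⟩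

lemma R455F5_holds {Q : ℕ} {a b c B m : ℤ} (S : Sys Q a b c B m) (hQ : 910 ∣ Q) :
    Holds R455F5 a b c B m :=
  rel_455F5 S ((by decide : 13 * 7 * 5 * 125 ∣ 910 ^ 6).trans (pow_dvd_pow_of_dvd hQ 6))

lemma R455F5_rc : RC R455F5 13 7 5 5 := ⟨rfl, rfl, rfl, rfl, by decide⟩

/-- the relations -/
def e8 : E8 :=
  ⟨Q140N13, Q260F13, Q364F13a, Q364F13b, Q728F13, Q280F7, Q728F7, Q520N7, Q520F5, Q728N5⟩

lemma e8_ok : E8OK e8 :=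
  ⟨⟨rfl, rfl, rfl, rfl, by decide⟩, ⟨rfl, rfl, rfl, rfl, by decide⟩, ⟨rfl, rfl, rfl, rfl, by decide⟩, ⟨rfl, rfl, rfl, rfl, by decide⟩, ⟨rfl, rfl, rfl, rfl, by decide⟩, ⟨rfl, rfl, rfl, rfl, by decide⟩, ⟨rfl, rfl, rfl, rfl, by decide⟩, ⟨rfl, rfl, rfl, rfl, by decide⟩, ⟨rfl, rfl, rfl, rfl, by decide⟩, ⟨rfl, rfl, rfl, rfl, by decide⟩,
    rfl, rfl, rfl, rfl, rfl, rfl, rfl, rfl, rfl, rfl, rfl, rfl, rfl, rfl, rfl, rfl, rfl, rfl, rfl, rfl⟩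

lemma e8_holds {Q : ℕ} {a b c B m : ℤ} (S : Sys Q a b c B m) (hQ : 910 ∣ Q) :
    E8H e8 a b c B m :=
  ⟨Q140N13_holds S hQ, Q260F13_holds S hQ, Q364F13a_holds S hQ, Q364F13b_holds S hQ, Q728F13_holds S hQ, Q280F7_holds S hQ, Q728F7_holds S hQ, Q520N7_holds S hQ, Q520F5_holds S hQ, Q728N5_holds S hQ⟩

end Pool.Agent.Lib_helper29.P7A
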