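import Pool.Agent.Lib_helper4.S7.St17

/-!
Period seven, stage A2: transposition of the tables (the component `8` becomes the outer one).
-/

namespace Pool.Agent.Lib_helper29.P7A

open Pool.Agent.Lib_helper5 Pool.Agent.Lib_helper5.LK Pool.Agent.Lib_helper5.TB
  Pool.Agent.Lib_helper5.Lane Pool.Agent.LibH4 Pool.Agent.LibH4.Ker Pool.Agent.LibH4.S7

/-- check of a transposed table -/
def trCk (L1 L2 L8 len3 M : ℕ) (rows rows' : List (ℕ × ℕ)) : Bool :=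
  allR (fun q1 => strict (nthP rows q1).1 fun X => strict (nthP rows q1).2 fun Y =>
    allR (fun q8 => strict (nthP rows' q8).1 fun X' => strict (nthP rows' q8).2 fun Y' =>
      strict (dig M q8) fun q3 =>
      allR (fun q2 => strict (Nat.add (Nat.mul q2 len3) q3) fun i =>
        strict (Nat.add (Nat.mul q1 L2) q2) fun j =>
        @Bool.rec (fun _ => Bool) false (Nat.beq (dig Y i) (dig Y' j))
          (Nat.beq (dig X i) (dig X' j))) L2) L8) L1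

lemma trCk_spec {L1 L2 L8 len3 M : ℕ} {rows rows' : List (ℕ × ℕ)}
    (h : trCk L1 L2 L8 len3 M rows rows' = true) {q1 q2 q8 : ℕ} (h1 : q1 < L1) (h2 : q2 < L2)
    (h8 : q8 < L8) :
    tX rows len3 q1 q2 (dig M q8) = tX rows' L2 q8 q1 q2 ∧
      tY rows len3 q1 q2 (dig M q8) = tY rows' L2 q8 q1 q2 := by
  have a1 := allR_spec h q1 h1
  simp only [strict_eq] at a1
  have a2 := allR_spec a1 q8 h8
  have a3 := allR_spec a2 q2 h2
  obtain ⟨b1, b2⟩ := boolrec_spec a3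
  have c1 := Nat.eq_of_beq_eq_true b1
  have c2 := Nat.eq_of_beq_eq_true b2
  rw [nthP_eq, nthP_eq] at c1 c2
  exact ⟨c1, c2⟩

/-- check of the positions and of the character of the last component -/
def posCk (n3 ex3 PT3 t3 M t8 : ℕ) : Bool :=
  allR (fun P => @Bool.rec (fun _ => Bool) false
    (allR (fun R => allR (fun S => impB (adO P R S)
      (Nat.beq (pos n3 ex3 PT3 (Nat.mod P n3) (Nat.mod R n3) (Nat.mod S n3))
        (dig M (pos (nat_lit 8) (nat_lit 1) PT8 P R S)))) (nat_lit 8)) (nat_lit 8))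
    (Nat.beq (dig t3 (Nat.mod P n3)) (dig t8 P))) (nat_lit 8)

lemma posCk_spec {n3 ex3 PT3 t3 M t8 : ℕ} (h : posCk n3 ex3 PT3 t3 M t8 = true) {P R S : ℕ}
    (hP : P < 8) (hR : R < 8) (hS : S < 8) (hA : adO P R S = true) :
    dig t3 (P % n3) = dig t8 P ∧
      pos n3 ex3 PT3 (P % n3) (R % n3) (S % n3) = dig M (pos 8 1 PT8 P R S) := by
  obtain ⟨a1, a2⟩ := boolrec_spec (allR_spec h P hP)
  exact ⟨Nat.eq_of_beq_eq_true a1,
    Nat.eq_of_beq_eq_true (impB_spec (allR_spec (allR_spec a2 R hR) S hS) hA)⟩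

/-- the transposed relation -/
def trR (r : Rl) (t8 L2 : ℕ) (rows' : List (ℕ × ℕ)) : Rl :=
  ⟨8, r.n1, r.n2, r.l, 1, r.ex1, r.ex2, PT8, r.PT1, r.PT2, t8, r.t1, r.t2, rows', L2⟩

lemma pos_lt_of {n ex PT : ℕ} {F : List (ℕ × ℕ)} {A : ℕ → ℕ → ℕ → Bool}
    (C : CompOK n ex PT F A) {P R S : ℕ} (hP : P < n) (hR : R < n) (hS : S < n)
    (hA : A P R S = true) : pos n ex PT P R S < F.length := by
  have h := (C.ok P R S hP hR hS hA).2
  by_contra hc
  rw [List.getElem?_eq_none (by omega)] at h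
  exact absurd h (by simp)

/-- **transposition** -/
theorem Holds.tr {r : Rl} {a b c B m : ℤ} (h : Holds r a b c B m) {t8 L1 L2 M : ℕ}
    {rows' : List (ℕ × ℕ)} [NeZero r.n1] [NeZero r.n2] [NeZero r.n3] {F1 F2 F8 : List (ℕ × ℕ)}
    {A1 A2 : ℕ → ℕ → ℕ → Bool} (hT : trCk L1 L2 16 r.len3 M r.rows rows' = true)
    (hp : posCk r.n3 r.ex3 r.PT3 r.t3 M t8 = true) (h8 : r.n3 ∣ 8)
    (C1 : CompOK r.n1 r.ex1 r.PT1 F1 A1) (C2 : CompOK r.n2 r.ex2 r.PT2 F2 A2)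
    (C8 : CompOK 8 1 PT8 F8 adO)
    (e1 : F1.length = L1) (e2 : F2.length = L2) (e8 : F8.length = 16)
    (a1 : ∀ j ∈ J7 a b c B m, A1 (rs r.n1 j.P) (rs r.n1 j.R) (rs r.n1 j.S) = true)
    (a2 : ∀ j ∈ J7 a b c B m, A2 (rs r.n2 j.P) (rs r.n2 j.R) (rs r.n2 j.S) = true)
    (a8 : ∀ j ∈ J7 a b c B m, adO (rs 8 j.P) (rs 8 j.R) (rs 8 j.S) = true) :
    Holds (trR r t8 L2 rows') a b c B m := by
  have key : ∀ j ∈ J7 a b c B m, (trR r t8 L2 rows').val j = r.val j := by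
    intro j hj
    have b1 := pos_lt_of C1 (rs_lt j.P) (rs_lt j.R) (rs_lt j.S) (a1 j hj)
    have b2 := pos_lt_of C2 (rs_lt j.P) (rs_lt j.R) (rs_lt j.S) (a2 j hj)
    have b8 := pos_lt_of C8 (rs_lt j.P) (rs_lt j.R) (rs_lt j.S) (a8 j hj)
    rw [e1] at b1
    rw [e2] at b2
    rw [e8] at b8
    obtain ⟨c1, c2⟩ := posCk_spec hp (rs_lt j.P) (rs_lt j.R) (rs_lt j.S) (a8 j hj)
    rw [rs_mod h8, rs_mod h8, rs_mod h8] at c2
    rw [rs_mod h8] at c1
    obtain ⟨d1, d2⟩ := trCk_spec hT b1 b2 b8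
    rw [← c2] at d1 d2
    unfold Rl.val fval trR
    simp only
    rw [d1, d2, c1]
    ring
  unfold Holds at h ⊢
  rw [List.map_congr_left key]
  exact h

end Pool.Agent.Lib_helper29.P7A
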